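import Pool.Agent.Helper45.HY.EEB

/-!
# One more form
-/

set_option autoImplicit false

namespace Pool.Agent.Helper45.HY

open MvPolynomial Pool.Agent.Helper4.HY Pool.Agent.Helper4.QH

universe u v w

lemma pd_comm' {K : Type u} [Field K] {σ : Type} (i j : σ) (G : MvPolynomial σ K) :
    pderiv i (pderiv j G) = pderiv j (pderiv i G) := by
  classical
  have h : ⁅(pderiv i : Derivation K (MvPolynomial σ K) (MvPolynomial σ K)),
      (pderiv j : Derivation K (MvPolynomial σ K) (MvPolynomial σ K))⁆ = 0 := by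
    refine derivation_ext fun l => ?_
    rw [Derivation.commutator_apply, pderiv_X, pderiv_X, Derivation.zero_apply]
    by_cases h1 : j = l
    · subst h1
      by_cases h2 : i = j
      · subst h2; simp
      · simp [Pi.single_eq_of_ne (Ne.symm h2)]
    · by_cases h2 : i = l
      · subst h2; simp [Pi.single_eq_of_ne (Ne.symm h1)]
      · simp [Pi.single_eq_of_ne (Ne.symm h1), Pi.single_eq_of_ne (Ne.symm h2)]
  have h2 := congrArg (fun D : Derivation K (MvPolynomial σ K) (MvPolynomial σ K) => D G) h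
  simp only [Derivation.commutator_apply, Derivation.zero_apply] at h2
  exact sub_eq_zero.1 h2

section

variable {K : Type u} [Field K] {L : Type v} [Field L] [Algebra K L] {a c : ℕ}

/-- The substitution `(s, y) = (s, t ρ)`. -/
noncomputable def sub (ρ : Fin c → L) :
    MvPolynomial (Fin a ⊕ Fin c) K →ₐ[K] MvPolynomial (Fin (a + 1)) L :=
  aeval (Sum.elim (fun l => X (Fin.succ l)) (fun l => X 0 * C (ρ l)))

/-- Forms which vanish on the linear space. -/
lemma sub_dvd (ρ : Fin c → L) (F : MvPolynomial (Fin a ⊕ Fin c) K) (hF : Van F) :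
    (X 0 : MvPolynomial (Fin (a + 1)) L) ∣ sub ρ F := by
  rw [← Ideal.mem_span_singleton, ← Ideal.Quotient.eq_zero_iff_mem]
  let q := Ideal.Quotient.mkₐ K (Ideal.span {(X 0 : MvPolynomial (Fin (a + 1)) L)})
  have hX : q (X 0) = 0 :=
    Ideal.Quotient.eq_zero_iff_mem.2 (Ideal.mem_span_singleton.2 dvd_rfl)
  have h1 : q.comp (sub ρ) = (q.comp (aeval (fun l : Fin a => (X (Fin.succ l) :
      MvPolynomial (Fin (a + 1)) L)))).comp
      (aeval (Sum.elim (X : Fin a → MvPolynomial (Fin a) K) (fun _ => 0))) := by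
    apply MvPolynomial.algHom_ext
    rintro (i | i)
    · simp [sub]
    · simp [sub, hX]
  have h2 := DFunLike.congr_fun h1 F
  have h3 : aeval (Sum.elim (X : Fin a → MvPolynomial (Fin a) K) (fun _ => 0)) F = 0 := hF
  have h4 : ((q.comp (aeval (fun l : Fin a => (X (Fin.succ l) :
      MvPolynomial (Fin (a + 1)) L)))).comp
      (aeval (Sum.elim (X : Fin a → MvPolynomial (Fin a) K) (fun _ => 0)))) F = 0 := by
    rw [AlgHom.comp_apply, h3, map_zero]
  rw [h4] at h2
  exact h2

/-- The derivative in `t`. -/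
lemma pd_zero (ρ : Fin c → L) (G : MvPolynomial (Fin a ⊕ Fin c) K) :
    pderiv 0 (sub ρ G) = ∑ l, C (ρ l) * sub ρ (pderiv (Sum.inr l) G) := by
  have h := der_aeval ((pderiv 0 : Derivation L (MvPolynomial (Fin (a + 1)) L) _).restrictScalars K)
    (Sum.elim (fun l => X (Fin.succ l)) (fun l => X 0 * C (ρ l))) G
  rw [Fintype.sum_sum_type] at h
  have h1 : ∀ l : Fin a, ((pderiv 0 : Derivation L (MvPolynomial (Fin (a + 1)) L) _).restrictScalars K)
      ((Sum.elim (fun l => X (Fin.succ l)) (fun l => X 0 * C (ρ l)) :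
        Fin a ⊕ Fin c → MvPolynomial (Fin (a + 1)) L) (Sum.inl l)) = 0 := by
    intro l
    change pderiv 0 (X (Fin.succ l)) = 0
    rw [pderiv_X]
    exact Pi.single_eq_of_ne (Fin.succ_ne_zero l) _
  have h2 : ∀ l : Fin c, ((pderiv 0 : Derivation L (MvPolynomial (Fin (a + 1)) L) _).restrictScalars K)
      ((Sum.elim (fun l => X (Fin.succ l)) (fun l => X 0 * C (ρ l)) :
        Fin a ⊕ Fin c → MvPolynomial (Fin (a + 1)) L) (Sum.inr l)) = C (ρ l) := by
    intro l
    change pderiv 0 (X 0 * C (ρ l)) = _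
    rw [mul_comm, pderiv_C_mul, pderiv_X, Pi.single_eq_same, mul_one]
  simp only [h1, h2, mul_zero, Finset.sum_const_zero, zero_add] at h
  refine Eq.trans h ?_
  exact Finset.sum_congr rfl fun l _ => mul_comm _ _

/-- The derivative in `s`. -/
lemma pd_succ (ρ : Fin c → L) (G : MvPolynomial (Fin a ⊕ Fin c) K) (m : Fin a) :
    pderiv (Fin.succ m) (sub ρ G) = sub ρ (pderiv (Sum.inl m) G) := by
  classical
  have h := der_aeval ((pderiv (Fin.succ m) :
      Derivation L (MvPolynomial (Fin (a + 1)) L) _).restrictScalars K)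
    (Sum.elim (fun l => X (Fin.succ l)) (fun l => X 0 * C (ρ l))) G
  rw [Fintype.sum_sum_type] at h
  have h1 : ∀ l : Fin a, ((pderiv (Fin.succ m) :
      Derivation L (MvPolynomial (Fin (a + 1)) L) _).restrictScalars K)
      ((Sum.elim (fun l => X (Fin.succ l)) (fun l => X 0 * C (ρ l)) :
        Fin a ⊕ Fin c → MvPolynomial (Fin (a + 1)) L) (Sum.inl l)) = if l = m then 1 else 0 := by
    intro l
    change pderiv (Fin.succ m) (X (Fin.succ l)) = _
    rw [pderiv_X]
    by_cases hl : l = m
    · subst hl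
      rw [if_pos rfl, Pi.single_eq_same]
    · rw [if_neg hl]
      exact Pi.single_eq_of_ne (fun h => hl (Fin.succ_injective _ h)) _
  have h2 : ∀ l : Fin c, ((pderiv (Fin.succ m) :
      Derivation L (MvPolynomial (Fin (a + 1)) L) _).restrictScalars K)
      ((Sum.elim (fun l => X (Fin.succ l)) (fun l => X 0 * C (ρ l)) :
        Fin a ⊕ Fin c → MvPolynomial (Fin (a + 1)) L) (Sum.inr l)) = 0 := by
    intro l
    change pderiv (Fin.succ m) (X 0 * C (ρ l)) = _
    rw [mul_comm, pderiv_C_mul, pderiv_X, Pi.single_eq_of_ne (Fin.succ_ne_zero m).symm, mul_zero]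
  simp only [h1, h2, mul_zero, Finset.sum_const_zero, add_zero, mul_ite, mul_one] at h
  rw [Finset.sum_ite_eq' Finset.univ m, if_pos (Finset.mem_univ m)] at h
  exact h

end

theorem ee_core {K : Type u} [Field K] [CharZero K] {a c : ℕ} {ι : Type} [Fintype ι]
    (d : Option ι → ℕ) (F : Option ι → MvPolynomial (Fin a ⊕ Fin c) K) (hd : ∀ i, 2 ≤ d i)
    (hF : ∀ i, (F i).IsHomogeneous (d i)) (hV : ∀ i, Van (F i)) (hFree : Free d F)
    {L : Type u} [Field L] [Algebra K L] {Ω : Type u} [Field Ω] [Algebra K Ω] [Algebra L Ω]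
    [IsScalarTower K L Ω] (ρr : Fin c → L) (hρr : AlgebraicIndependent K ρr) (sg : Fin a → Ω)
    (m : Fin a) (hm : Transcendental L (sg m)) (R : Fin a ⊕ Fin c → Ω)
    (hRl : ∀ l, R (Sum.inl l) = sg l) (hRr : ∀ l, R (Sum.inr l) = algebraMap L Ω (ρr l))
    (hR0 : ∀ i : ι, aeval R (F (some i)) = 0) :
    LinearIndependent Ω fun (i : Option ι) (l : Fin a) => aeval R (pderiv (Sum.inl l) (F i)) := by
  classical
  have hcΩ : CharZero Ω := charZero_of_injective_algebraMap (algebraMap K Ω).injective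
  -- (3) the cone
  let P : Fin (a + 1) → Ω := Fin.cons 1 sg
  let φ : MvPolynomial (Fin (a + 1)) L →ₐ[L] MM Ω := coneHom P
  let T : MM Ω := tau Ω
  have hT : T ≠ 0 := tau_ne Ω
  let ι' := algebraMap Ω (MM Ω)
  have hφsub : ∀ (G : MvPolynomial (Fin a ⊕ Fin c) K) (e : ℕ), G.IsHomogeneous e →
      φ (sub ρr G) = T ^ e * ι' (aeval R G) := by
    intro G e hG
    have h1 : (φ.restrictScalars K).comp (sub ρr) = aeval (fun i => T * ι' (R i)) := by
      apply MvPolynomial.algHom_ext
      rintro (i | i)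
      · simp only [AlgHom.comp_apply, sub, aeval_X, Sum.elim_inl]
        change coneHom P (X (Fin.succ i)) = _
        rw [coneHom, aeval_X, hRl]
        rfl
      · simp only [AlgHom.comp_apply, sub, aeval_X, Sum.elim_inr, map_mul]
        change coneHom P (X 0) * coneHom P (C (ρr i)) = _
        rw [coneHom, aeval_X, aeval_C, hRr]
        have h2 : P 0 = 1 := rfl
        rw [h2, map_one, mul_one]
        rfl
    have h2 := DFunLike.congr_fun h1 G
    have h3 : aeval (fun i => T * ι' (R i)) G = T ^ e * ι' (aeval R G) := by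
      have h4 : aeval (fun i => ι' (R i)) G = ι' (aeval R G) := aeval_algebraMap_apply (MM Ω) R G
      rw [← h4, aeval_def, aeval_def, eval₂_eq', eval₂_eq', Finset.mul_sum]
      refine Finset.sum_congr rfl fun s hs => ?_
      have h5 : ∑ i, s i = e := by
        have := hG (mem_support_iff.1 hs)
        rw [Finsupp.weight_apply, Finsupp.sum_fintype _ _ (by simp)] at this
        simpa using this
      simp only [mul_pow, Finset.prod_mul_distrib, Finset.prod_pow_eq_pow_sum, h5]
      ring
    rw [← h3, ← h2]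
    rfl
  -- (4) a point at `t = 0`
  obtain ⟨Q, hQp, hQk, hQg, ⟨i0, hi0⟩⟩ := Pool.Agent.Helper64.QH.sPt L (MM Ω) (a + 1) 1 φ
    (coneHom_homKer P) (fun _ => X 0) (fun _ => 1) (fun _ => one_pos)
    (fun _ => isHomogeneous_X _ _) (by
      refine ⟨![X 0, X (Fin.succ m)], ?_⟩
      have h1 := tau_ind hm
      have h2 : (fun j => φ ((![X 0, X (Fin.succ m)] :
          Fin 2 → MvPolynomial (Fin (a + 1)) L) j)) =
          fun i : Fin 2 => tau Ω * algebraMap Ω (MM Ω) ((![1, sg m] : Fin 2 → Ω) i) := by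
        funext j
        fin_cases j
        · change coneHom P (X 0) = _
          rw [coneHom, aeval_X]
          rfl
        · change coneHom P (X (Fin.succ m)) = _
          rw [coneHom, aeval_X]
          rfl
      rw [h2]
      exact h1)
  have hX0 : (X 0 : MvPolynomial (Fin (a + 1)) L) ∈ Q := hQg 0
  let B := MvPolynomial (Fin (a + 1)) L ⧸ Q
  let Ω' := FractionRing B
  let ψ : MvPolynomial (Fin (a + 1)) L →ₐ[L] Ω' :=
    (IsScalarTower.toAlgHom L B Ω').comp (Ideal.Quotient.mkₐ L Q)
  have hψ : ∀ x, ψ x = 0 ↔ x ∈ Q := by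
    intro x
    change algebraMap B Ω' (Ideal.Quotient.mk Q x) = 0 ↔ _
    rw [map_eq_zero_iff _ (IsFractionRing.injective B Ω'), Ideal.Quotient.eq_zero_iff_mem]
  let s0 : Fin a → Ω' := fun l => ψ (X (Fin.succ l))
  have hs0 : s0 ≠ 0 := by
    intro h
    apply hi0
    rw [← hψ]
    refine Fin.cases ?_ (fun l => ?_) i0
    · exact (hψ _).2 hX0
    · exact congrFun h l
  let ρ' : Fin c → Ω' := fun l => algebraMap L Ω' (ρr l)
  have hρ' : AlgebraicIndependent K ρ' := by
    exact hρr.map' (f := IsScalarTower.toAlgHom K L Ω') (algebraMap L Ω').injective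
  have hψsub : ∀ G : MvPolynomial (Fin a ⊕ Fin c) K, ψ (sub ρr G) = aeval (pz s0) G := by
    intro G
    have h1 : (ψ.restrictScalars K).comp (sub ρr) = aeval (pz s0) := by
      apply MvPolynomial.algHom_ext
      rintro (i | i)
      · simp only [AlgHom.comp_apply, sub, aeval_X, Sum.elim_inl]
        rfl
      · simp only [AlgHom.comp_apply, sub, aeval_X, Sum.elim_inr, map_mul]
        have h2 : (ψ.restrictScalars K) (X 0) = 0 := (hψ _).2 hX0
        rw [h2, zero_mul]
        rfl
    exact DFunLike.congr_fun h1 G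
  have hψpd : ∀ G : MvPolynomial (Fin a ⊕ Fin c) K, ψ (pderiv 0 (sub ρr G)) =
      ∑ l, ρ' l * aeval (pz s0) (pderiv (Sum.inr l) G) := by
    intro G
    rw [pd_zero, map_sum]
    refine Finset.sum_congr rfl fun l _ => ?_
    rw [map_mul, hψsub]
    congr 1
  -- the quotients
  choose U hU using fun j : Option ι => sub_dvd ρr (F j) (hV j)
  have hUψ : ∀ j, ψ (U j) = Phi (F j) ρ' s0 := by
    intro j
    have h1 := hψpd (F j)
    rw [hU j, Derivation.leibniz, smul_eq_mul, smul_eq_mul, pderiv_X, Pi.single_eq_same, mul_one,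
      map_add, map_mul, (hψ _).2 hX0, zero_mul, zero_add] at h1
    exact h1
  have hVs : ∀ j (m : Fin a), sub ρr (pderiv (Sum.inl m) (F j)) =
      X 0 * pderiv (Fin.succ m) (U j) := by
    intro j m
    rw [← pd_succ, hU j, Derivation.leibniz, smul_eq_mul, smul_eq_mul, pderiv_X,
      Pi.single_eq_of_ne (Fin.succ_ne_zero m).symm, mul_zero, add_zero]
  have hVψ : ∀ j (m : Fin a), ψ (pderiv (Fin.succ m) (U j)) = Phim (F j) ρ' s0 m := by
    intro j m
    have h1 := hψpd (pderiv (Sum.inl m) (F j))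
    rw [hVs j m, Derivation.leibniz, smul_eq_mul, smul_eq_mul, pderiv_X, Pi.single_eq_same, mul_one,
      map_add, map_mul, (hψ _).2 hX0, zero_mul, zero_add] at h1
    rw [h1, Phim]
    refine Finset.sum_congr rfl fun l _ => ?_
    rw [pd_comm']
  have hφU : ∀ j, T * φ (U j) = T ^ (d j) * ι' (aeval R (F j)) := by
    intro j
    rw [← hφsub _ _ (hF j), hU j, map_mul]
    congr 1
    change T = coneHom P (X 0)
    rw [coneHom, aeval_X]
    have h2 : P 0 = 1 := rfl
    rw [h2, map_one, mul_one]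
  have hφX : φ (X 0) = T := by
    change coneHom P (X 0) = T
    rw [coneHom, aeval_X]
    have h2 : P 0 = 1 := rfl
    rw [h2, map_one, mul_one]
  have hφV : ∀ j (m : Fin a), T * φ (pderiv (Fin.succ m) (U j)) =
      T ^ (d j - 1) * ι' (aeval R (pderiv (Sum.inl m) (F j))) := by
    intro j m
    rw [← hφsub _ _ (hF j).pderiv, hVs, map_mul, hφX]
  -- the vertex
  have h5 := step5 d F hd hF hFree Ω' ρ' hρ' s0 hs0 (by
    intro i
    rw [← hUψ, hψ]
    apply hQk
    rw [RingHom.mem_ker]
    have h1 := hφU (some i)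
    rw [hR0 i, map_zero, mul_zero] at h1
    exact (mul_eq_zero.1 h1).resolve_left hT)
  have h6 : LinearIndependent (MM Ω) fun (j : Option ι) (m : Fin a) =>
      φ (pderiv (Fin.succ m) (U j)) := by
    refine spec_ind (S := MvPolynomial (Fin (a + 1)) L) φ.toRingHom ψ.toRingHom ?_ ?_ _ ?_
    · intro x hx
      exact (hψ x).2 (hQk hx)
    · intro κ _ g
      obtain ⟨b, hb⟩ := IsLocalization.exist_integer_multiples_of_finite
        (nonZeroDivisors B) g
      obtain ⟨b', hb'⟩ := Ideal.Quotient.mk_surjective (b : B)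
      refine ⟨b', ?_, fun i => ?_⟩
      · change algebraMap B Ω' (Ideal.Quotient.mk Q b') ≠ 0
        rw [hb']
        intro h
        rw [map_eq_zero_iff _ (IsFractionRing.injective B Ω')] at h
        exact nonZeroDivisors.ne_zero b.2 h
      · obtain ⟨x, hx⟩ := hb i
        obtain ⟨x', hx'⟩ := Ideal.Quotient.mk_surjective x
        refine ⟨x', ?_⟩
        change algebraMap B Ω' (Ideal.Quotient.mk Q x') = algebraMap B Ω' (Ideal.Quotient.mk Q b') * g i
        rw [hx', hb', hx, Algebra.smul_def]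
    · have h7 : (fun (j : Option ι) (l : Fin a) => ψ.toRingHom (pderiv (Fin.succ l) (U j))) =
          fun (j : Option ι) (m : Fin a) => Phim (F j) ρ' s0 m := by
        funext j m
        exact hVψ j m
      rw [h7]
      exact h5
  rw [Fintype.linearIndependent_iff] at h6 ⊢
  intro g hg j
  have hg' : ∀ m : Fin a, ∑ j, g j * aeval R (pderiv (Sum.inl m) (F j)) = 0 := by
    intro m
    have := congrFun hg m
    rw [Finset.sum_apply] at this
    exact this
  have h8 := h6 (fun j => ι' (g j) * (T ^ (d j - 2))⁻¹) (by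
    funext m
    rw [Finset.sum_apply]
    have h9 : ∀ j, φ (pderiv (Fin.succ m) (U j)) =
        T ^ (d j - 2) * ι' (aeval R (pderiv (Sum.inl m) (F j))) := by
      intro j
      have h10 := hφV j m
      have h11 : d j - 1 = (d j - 2) + 1 := by have := hd j; omega
      rw [h11, pow_succ] at h10
      apply mul_left_cancel₀ hT
      rw [h10]
      ring
    have h12 : ∀ j, ((ι' (g j) * (T ^ (d j - 2))⁻¹) • fun m : Fin a =>
        φ (pderiv (Fin.succ m) (U j))) m = ι' (g j * aeval R (pderiv (Sum.inl m) (F j))) := by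
      intro j
      rw [Pi.smul_apply, smul_eq_mul, h9, map_mul]
      have h13 : T ^ (d j - 2) ≠ 0 := pow_ne_zero _ hT
      field_simp
    rw [Finset.sum_congr rfl fun j _ => h12 j, ← map_sum, hg' m, map_zero]
    rfl) j
  have h14 : ι' (g j) = 0 :=
    (mul_eq_zero.1 h8).resolve_right (inv_ne_zero (pow_ne_zero _ hT))
  exact (map_eq_zero_iff _ ι'.injective).1 h14

theorem sEE : SEE.{u} := by
  intro K _ _ a c ι _ d F hd hF hV hFree hcard Ω _ _ R hR
  classical
  have hcΩ : CharZero Ω := charZero_of_injective_algebraMap (algebraMap K Ω).injective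
  let ρ : Fin c → Ω := fun l => R (Sum.inr l)
  let sg : Fin a → Ω := fun l => R (Sum.inl l)
  let Kr : IntermediateField K Ω := IntermediateField.adjoin K (Set.range ρ)
  -- (1) derivations
  have hdd : ∀ (i : Option ι) (p : Fin a → Ω) (η : Fin c → Ω), dd (F i) R (Sum.elim p η) =
      (∑ l, p l * aeval R (pderiv (Sum.inl l) (F i))) +
        ∑ l, η l * aeval R (pderiv (Sum.inr l) (F i)) := by
    intro i p η
    rw [dd, Fintype.sum_sum_type]
    rfl
  have hder : ∀ η : Fin c → Ω, ∃ D : Derivation K Ω Ω, ∀ l, D (ρ l) = η l := by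
    intro η
    obtain ⟨p, hp⟩ := surj_of_ind _ hR.ind
      (fun i => -∑ l, η l * aeval R (pderiv (Sum.inr l) (F (some i))))
    obtain ⟨D, hD⟩ := hR.der (Sum.elim p η) (by
      intro i
      rw [hdd]
      have h1 := hp i
      have h2 : ∑ l, p l * aeval R (pderiv (Sum.inl l) (F (some i))) =
          ∑ l, aeval R (pderiv (Sum.inl l) (F (some i))) * p l :=
        Finset.sum_congr rfl fun l _ => mul_comm _ _
      rw [h2, h1, neg_add_cancel])
    exact ⟨D, fun l => hD (Sum.inr l)⟩
  have hρ : AlgebraicIndependent K ρ := algInd_of_der ρ hder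
  -- (2) a transcendental coordinate
  obtain ⟨m, hm⟩ : ∃ m, Transcendental Kr (sg m) := by
    obtain ⟨p, hp0, hp⟩ := exists_ker (B := Ω) (J := ι) (m := Fin a)
      (fun i (l : Fin a) => aeval R (pderiv (Sum.inl l) (F (some i)))) (by
        rw [Fintype.card_fin]
        omega)
    obtain ⟨D, hD⟩ := hR.der (Sum.elim p 0) (by
      intro i
      rw [hdd]
      have h2 : ∑ l, p l * aeval R (pderiv (Sum.inl l) (F (some i))) =
          ∑ l, aeval R (pderiv (Sum.inl l) (F (some i))) * p l :=
        Finset.sum_congr rfl fun l _ => mul_comm _ _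
      rw [h2, hp i]
      simp)
    obtain ⟨m, hm⟩ : ∃ m, p m ≠ 0 := by
      by_contra hcon
      push Not at hcon
      exact hp0 (funext hcon)
    refine ⟨m, fun halg => hm ?_⟩
    have h4 : sg m ∈ Pool.Agent.R867.Mov.cl K (Set.range ρ) :=
      Pool.Agent.R867.Mov.mem_cl_iff.2 halg
    have h5 := Pool.Agent.R867.J.der_cl D (S := Set.range ρ) (by
      rintro _ ⟨l, rfl⟩
      exact hD (Sum.inr l)) h4
    have h6 := hD (Sum.inl m)
    exact h6.symm.trans h5
  let ρr : Fin c → Kr := fun l => ⟨ρ l, IntermediateField.subset_adjoin _ _ ⟨l, rfl⟩⟩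
  have hρr : AlgebraicIndependent K ρr := by
    rw [← AlgHom.algebraicIndependent_iff Kr.val Subtype.val_injective]
    exact hρ
  exact ee_core d F hd hF hV hFree ρr hρr sg m hm R (fun _ => rfl) (fun _ => rfl) hR.zero

end Pool.Agent.Helper45.HY
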