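import Pool.Agent.Helper4.HY.Defs
import Pool.Agent.Helper4.QH.ConeN
import Pool.Agent.Helper64.QH.Grd
import Pool.Graph.R_seed8.R867.J.Der

/-!
# One more form: general lemmas
-/

set_option autoImplicit false

namespace Pool.Agent.Helper45.HY

open MvPolynomial Pool.Agent.Helper4.QH

universe u v w

/-- The chain rule. -/
lemma der_aeval {K : Type u} [CommRing K] {A : Type v} [CommRing A] [Algebra K A] {σ : Type}
    [Fintype σ] (D : Derivation K A A) (f : σ → A) (G : MvPolynomial σ K) :
    D (aeval f G) = ∑ i, aeval f (pderiv i G) * D (f i) := by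
  classical
  induction G using MvPolynomial.induction_on with
  | C c => simp [aeval_C]
  | add p q hp hq =>
    simp only [map_add, hp, hq, add_mul, Finset.sum_add_distrib]
  | mul_X p i hp =>
    rw [map_mul, aeval_X, Derivation.leibniz, smul_eq_mul, smul_eq_mul, hp]
    have h1 : ∀ j, aeval f (pderiv j (p * X i)) * D (f j) =
        f i * (aeval f (pderiv j p) * D (f j)) + (if j = i then aeval f p * D (f j) else 0) := by
      intro j
      rw [Derivation.leibniz, smul_eq_mul, smul_eq_mul, pderiv_X, map_add, map_mul, map_mul,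
        aeval_X]
      by_cases hj : j = i
      · subst hj
        simp
        ring
      · rw [if_neg hj, Pi.single_eq_of_ne (Ne.symm hj), map_zero, mul_zero, zero_add, add_zero]
        ring
    simp only [h1]
    rw [Finset.sum_add_distrib, ← Finset.mul_sum, Finset.sum_ite_eq' Finset.univ i,
      if_pos (Finset.mem_univ i)]
    ring

/-- Elements which are moved in all directions by derivations are algebraically independent. -/
lemma algInd_of_der {K : Type u} [Field K] {Ω : Type v} [Field Ω] [CharZero Ω] [Algebra K Ω]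
    {κ : Type} [Fintype κ] (ρ : κ → Ω)
    (h : ∀ η : κ → Ω, ∃ D : Derivation K Ω Ω, ∀ l, D (ρ l) = η l) : AlgebraicIndependent K ρ := by
  classical
  obtain ⟨T, hT, hmaxT⟩ := ((Finset.univ : Finset (Finset κ)).filter
    (fun T : Finset κ => AlgebraicIndepOn K ρ (T : Set κ))).exists_max_image Finset.card
      ⟨∅, by
        rw [Finset.mem_filter]
        refine ⟨Finset.mem_univ _, ?_⟩
        rw [Finset.coe_empty]
        exact algebraicIndependent_empty_type⟩
  rw [Finset.mem_filter] at hT
  have hall : ∀ l, l ∈ T := by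
    intro l
    by_contra hl
    have h1 : IsAlgebraic (Algebra.adjoin K (ρ '' (T : Set κ))) (ρ l) := by
      by_contra h1
      have h2 := AlgebraicIndepOn.insert hT.2 h1
      have h3 := hmaxT (insert l T) (by
        rw [Finset.mem_filter]
        refine ⟨Finset.mem_univ _, ?_⟩
        rw [Finset.coe_insert]
        exact h2)
      rw [Finset.card_insert_of_notMem hl] at h3
      omega
    obtain ⟨D, hD⟩ := h (Pi.single l 1)
    have h4 : ρ l ∈ Pool.Agent.R867.Mov.cl K (ρ '' (T : Set κ)) := by
      rw [Pool.Agent.R867.Mov.mem_cl_iff]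
      have hle : ∀ y ∈ Algebra.adjoin K (ρ '' (T : Set κ)),
          y ∈ IntermediateField.adjoin K (ρ '' (T : Set κ)) := fun y hy =>
        IntermediateField.algebra_adjoin_le_adjoin K _ hy
      let f : Algebra.adjoin K (ρ '' (T : Set κ)) →+*
          IntermediateField.adjoin K (ρ '' (T : Set κ)) :=
        { toFun := fun y => ⟨y.1, hle y.1 y.2⟩
          map_one' := rfl
          map_mul' := fun _ _ => rfl
          map_zero' := rfl
          map_add' := fun _ _ => rfl }
      let := f.toAlgebra
      have : IsScalarTower (Algebra.adjoin K (ρ '' (T : Set κ)))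
          (IntermediateField.adjoin K (ρ '' (T : Set κ))) Ω :=
        IsScalarTower.of_algebraMap_eq (fun _ => rfl)
      exact h1.extendScalars (by
        intro a b hab
        have := congrArg Subtype.val hab
        exact Subtype.ext this)
    have h5 := Pool.Agent.R867.J.der_cl D (S := ρ '' (T : Set κ)) (by
      rintro _ ⟨j, hj, rfl⟩
      rw [hD]
      have hjl : j ≠ l := by
        rintro rfl
        exact hl hj
      exact Pi.single_eq_of_ne hjl _) h4
    rw [hD, Pi.single_eq_same] at h5
    exact one_ne_zero h5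
  have h1 : (T : Set κ) = Set.univ := by
    ext l
    simp [hall l]
  have h2 := hT.2
  rw [h1] at h2
  exact AlgebraicIndependent.comp h2 (fun l => (⟨l, trivial⟩ : (Set.univ : Set κ)))
    (fun a b hab => congrArg Subtype.val hab)

/-- Independent rows: surjectivity. -/
lemma surj_of_ind {B : Type v} [Field B] {J m : Type} [Fintype J] [Fintype m]
    (V : J → m → B) (h : LinearIndependent B V) (b : J → B) :
    ∃ p : m → B, ∀ j, ∑ l, V j l * p l = b j := by
  classical
  let N : Matrix J m B := Matrix.of V
  have h1 : N.rank = Fintype.card J := LinearIndependent.rank_matrix h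
  have h2 : LinearMap.range N.mulVecLin = ⊤ := by
    apply Submodule.eq_top_of_finrank_eq
    rw [Module.finrank_fintype_fun_eq_card]
    exact h1
  have h3 : b ∈ LinearMap.range N.mulVecLin := by
    rw [h2]
    trivial
  obtain ⟨p, hp⟩ := h3
  exact ⟨p, fun j => congrFun hp j⟩

/-- Few rows: a kernel. -/
lemma exists_ker {B : Type v} [Field B] {J m : Type} [Fintype J] [Fintype m]
    (V : J → m → B) (h : Fintype.card J < Fintype.card m) :
    ∃ p : m → B, p ≠ 0 ∧ ∀ j, ∑ l, V j l * p l = 0 := by
  classical
  let N : Matrix J m B := Matrix.of V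
  have h1 : LinearMap.ker N.mulVecLin ≠ ⊥ := by
    apply LinearMap.ker_ne_bot_of_finrank_lt
    rw [Module.finrank_fintype_fun_eq_card, Module.finrank_fintype_fun_eq_card]
    exact h
  obtain ⟨p, hp, hp0⟩ := (Submodule.ne_bot_iff _).1 h1
  exact ⟨p, hp0, fun j => congrFun hp j⟩

/-- Linear independence is preserved under generalization. -/
lemma spec_ind {S : Type u} [CommRing S] {A : Type v} [Field A] {B : Type w} [Field B]
    (φ : S →+* A) (ψ : S →+* B) (hker : ∀ x, φ x = 0 → ψ x = 0)
    (hfrac : ∀ (κ : Type) [Fintype κ] (g : κ → B), ∃ b : S, ψ b ≠ 0 ∧ ∀ i, ∃ s : S, ψ s = ψ b * g i)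
    {J m : Type} [Fintype J] [Fintype m] (V : J → m → S)
    (hind : LinearIndependent B fun j l => ψ (V j l)) :
    LinearIndependent A fun j l => φ (V j l) := by
  classical
  have h1 : ∀ j' : J, ∃ p : m → B, ∀ j, ∑ l, ψ (V j l) * p l = if j = j' then 1 else 0 :=
    fun j' => surj_of_ind _ hind _
  choose p hp using h1
  obtain ⟨b, hb, hs⟩ := hfrac (J × m) (fun q => p q.1 q.2)
  choose s hs using hs
  let N : Matrix J m S := Matrix.of V
  let W : Matrix m J S := Matrix.of fun l j => s (j, l)
  have h2 : (N * W).map ψ = ψ b • (1 : Matrix J J B) := by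
    ext j j'
    rw [Matrix.map_apply, Matrix.mul_apply, map_sum, Matrix.smul_apply, Matrix.one_apply,
      ← hp j' j, smul_eq_mul, Finset.mul_sum]
    refine Finset.sum_congr rfl fun l _ => ?_
    rw [map_mul]
    change ψ (V j l) * ψ (s (j', l)) = _
    rw [hs]
    ring
  have h3 : ψ (N * W).det ≠ 0 := by
    have h4 : ψ (N * W).det = ((N * W).map ψ).det := RingHom.map_det _ _
    rw [h4, h2, Matrix.det_smul, Matrix.det_one, mul_one]
    exact pow_ne_zero _ hb
  have h5 : φ (N * W).det ≠ 0 := fun h => h3 (hker _ h)
  have h6 : φ (N * W).det = (N.map φ * W.map φ).det := by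
    rw [← Matrix.map_mul]
    exact RingHom.map_det _ _
  rw [h6] at h5
  rw [Fintype.linearIndependent_iff]
  intro g hg
  have h7 : Matrix.vecMul g (N.map φ) = 0 := by
    funext l
    have h8 := congrFun hg l
    rw [Finset.sum_apply] at h8
    exact h8
  have h9 : Matrix.vecMul g (N.map φ * W.map φ) = 0 := by
    rw [← Matrix.vecMul_vecMul, h7, Matrix.zero_vecMul]
  have h10 := Matrix.eq_zero_of_vecMul_eq_zero h5 h9
  intro j
  exact congrFun h10 j

/-- A homogeneous polynomial in two variables is determined by its values at `(1, s)`. -/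
lemma hom_two {k : Type u} [Field k] {Ω : Type v} [Field Ω] [Algebra k Ω] {s : Ω}
    (hs : Transcendental k s) {d : ℕ} (q : MvPolynomial (Fin 2) k) (hq : q.IsHomogeneous d)
    (h0 : aeval (![1, s] : Fin 2 → Ω) q = 0) : q = 0 := by
  classical
  let f : Polynomial k := aeval (![1, Polynomial.X] : Fin 2 → Polynomial k) q
  have h1 : Polynomial.aeval s f = aeval (![1, s] : Fin 2 → Ω) q := by
    have h2 : ((Polynomial.aeval s).comp
        (aeval (![1, Polynomial.X] : Fin 2 → Polynomial k) : MvPolynomial (Fin 2) k →ₐ[k] _)) =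
        aeval (![1, s] : Fin 2 → Ω) := by
      apply MvPolynomial.algHom_ext
      intro i
      fin_cases i <;> simp
    exact DFunLike.congr_fun h2 q
  have h3 : f = 0 := (transcendental_iff.1 hs) f (by rw [h1, h0])
  have h4 : f = ∑ m ∈ q.support, Polynomial.C (coeff m q) * Polynomial.X ^ (m 1) := by
    change aeval _ q = _
    rw [aeval_def, eval₂_eq']
    refine Finset.sum_congr rfl fun m _ => ?_
    simp [Fin.prod_univ_two]
  by_contra hq0
  obtain ⟨m, hm⟩ := MvPolynomial.support_nonempty.2 hq0
  have h5 : f.coeff (m 1) = coeff m q := by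
    rw [h4, Polynomial.finsetSum_coeff, Finset.sum_eq_single m]
    · simp
    · intro m' hm' hne
      rw [Polynomial.coeff_C_mul, Polynomial.coeff_X_pow, if_neg, mul_zero]
      intro h6
      apply hne
      have e1 := hq (mem_support_iff.1 hm)
      have e2 := hq (mem_support_iff.1 hm')
      rw [Finsupp.weight_apply, Finsupp.sum_fintype _ _ (by simp)] at e1 e2
      simp only [Fin.sum_univ_two, Pi.one_apply, smul_eq_mul, mul_one] at e1 e2
      ext i
      fin_cases i
      · simp only [Fin.zero_eta, Fin.isValue]
        omega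
      · exact h6.symm
    · intro h6
      exact absurd hm h6
  rw [h3, Polynomial.coeff_zero] at h5
  exact (mem_support_iff.1 hm) h5.symm

/-- The generic point of the plane cone. -/
lemma tau_ind {k : Type u} [Field k] {Ω : Type v} [Field Ω] [Algebra k Ω] {s : Ω}
    (hs : Transcendental k s) :
    AlgebraicIndependent k (fun i : Fin 2 => tau Ω * algebraMap Ω (MM Ω) ((![1, s] : Fin 2 → Ω) i)) := by
  rw [algebraicIndependent_iff]
  intro p hp
  have h1 := (cone_iff (tau_tr Ω) (![1, s] : Fin 2 → Ω) p).1 hp
  rw [← sum_homogeneousComponent p]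
  refine Finset.sum_eq_zero fun d _ => ?_
  exact hom_two hs _ (homogeneousComponent_isHomogeneous d p) (h1 d)

end Pool.Agent.Helper45.HY
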