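import Pool.Agent.Helper45.HY.EEA

/-!
# One more form: the vertex of the degeneration
-/

set_option autoImplicit false

namespace Pool.Agent.Helper45.HY

open MvPolynomial Pool.Agent.Helper4.HY Pool.Agent.Helper4.QH

universe u v w

section

variable {K : Type u} [Field K] {a c : ℕ} {M : Type v} [Field M] [Algebra K M]

/-- The point `(s, 0)`. -/
def pz (s : Fin a → M) : Fin a ⊕ Fin c → M := Sum.elim s fun _ => 0

/-- The linear part in the direction `ρ` at `s`. -/
noncomputable def Phi (F : MvPolynomial (Fin a ⊕ Fin c) K) (ρ : Fin c → M) (s : Fin a → M) : M :=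
  ∑ l, ρ l * aeval (pz s) (pderiv (Sum.inr l) F)

/-- Its partial derivatives. -/
noncomputable def Phim (F : MvPolynomial (Fin a ⊕ Fin c) K) (ρ : Fin c → M) (s : Fin a → M)
    (m : Fin a) : M :=
  ∑ l, ρ l * aeval (pz s) (pderiv (Sum.inl m) (pderiv (Sum.inr l) F))

lemma lin_eval (F : MvPolynomial (Fin a ⊕ Fin c) K) (η : Fin c → M) (s : Fin a → M) :
    aeval s (lin F η) = Phi F η s := by
  rw [lin, map_sum, Phi]
  refine Finset.sum_congr rfl fun l _ => ?_
  rw [map_mul, aeval_C]
  congr 1
  have h : ((aeval s : MvPolynomial (Fin a) M →ₐ[M] M).restrictScalars K).comp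
      (aeval (Sum.elim (X : Fin a → MvPolynomial (Fin a) M) (fun _ => 0)) :
        MvPolynomial (Fin a ⊕ Fin c) K →ₐ[K] MvPolynomial (Fin a) M) = aeval (pz s) := by
    apply MvPolynomial.algHom_ext
    rintro (i | i)
    · simp [pz]
    · simp [pz]
  exact DFunLike.congr_fun h _

lemma euler_Phi {F : MvPolynomial (Fin a ⊕ Fin c) K} {d : ℕ} (hF : F.IsHomogeneous d)
    (ρ : Fin c → M) (s : Fin a → M) : ∑ m, s m * Phim F ρ s m = ((d - 1 : ℕ) : M) * Phi F ρ s := by
  simp only [Phim, Phi, Finset.mul_sum]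
  rw [Finset.sum_comm]
  refine Finset.sum_congr rfl fun l _ => ?_
  have h1 : (pderiv (Sum.inr l) F).IsHomogeneous (d - 1) := hF.pderiv
  have h2 := congrArg (aeval (pz s : Fin a ⊕ Fin c → M)) h1.sum_X_mul_pderiv
  rw [map_sum, Fintype.sum_sum_type, map_nsmul] at h2
  simp only [map_mul, aeval_X] at h2
  have h3 : ∀ x : Fin c, (pz s : Fin a ⊕ Fin c → M) (Sum.inr x) = 0 := fun _ => rfl
  have h4 : ∀ x : Fin a, (pz s : Fin a ⊕ Fin c → M) (Sum.inl x) = s x := fun _ => rfl
  simp only [h3, h4, zero_mul, Finset.sum_const_zero, add_zero, nsmul_eq_mul] at h2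
  calc _ = ρ l * ∑ m, s m * aeval (pz s) (pderiv (Sum.inl m) (pderiv (Sum.inr l) F)) := by
        rw [Finset.mul_sum]
        exact Finset.sum_congr rfl fun m _ => by ring
    _ = _ := by
        rw [h2]
        ring

lemma der_Phi (F : MvPolynomial (Fin a ⊕ Fin c) K) (ρ : Fin c → M) (s : Fin a → M)
    (D : Derivation K M M) : D (Phi F ρ s) = Phi F (fun l => D (ρ l)) s +
      ∑ m, Phim F ρ s m * D (s m) := by
  have h1 : ∀ l, D (ρ l * aeval (pz s) (pderiv (Sum.inr l) F)) =
      D (ρ l) * aeval (pz s) (pderiv (Sum.inr l) F) +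
      ∑ m, ρ l * aeval (pz s) (pderiv (Sum.inl m) (pderiv (Sum.inr l) F)) * D (s m) := by
    intro l
    rw [Derivation.leibniz, smul_eq_mul, smul_eq_mul, der_aeval, Fintype.sum_sum_type]
    have h3 : ∀ x : Fin c, D ((pz s : Fin a ⊕ Fin c → M) (Sum.inr x)) = 0 := fun _ => by
      change D 0 = 0
      exact map_zero D
    have h4 : ∀ x : Fin a, (pz s : Fin a ⊕ Fin c → M) (Sum.inl x) = s x := fun _ => rfl
    simp only [h3, h4, mul_zero, Finset.sum_const_zero, add_zero]
    rw [Finset.mul_sum]
    rw [add_comm]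
    congr 1
    · ring
    · exact Finset.sum_congr rfl fun m _ => by ring
  rw [Phi, map_sum]
  simp only [h1]
  rw [Finset.sum_add_distrib, Finset.sum_comm]
  congr 1
  refine Finset.sum_congr rfl fun m _ => ?_
  rw [Phim, Finset.sum_mul]

end

/-- Independence at the vertex of the degeneration. -/
theorem step5 {K : Type u} [Field K] [CharZero K] {a c : ℕ} {ι : Type} [Fintype ι]
    (d : Option ι → ℕ) (F : Option ι → MvPolynomial (Fin a ⊕ Fin c) K) (hd : ∀ i, 2 ≤ d i)
    (hF : ∀ i, (F i).IsHomogeneous (d i)) (hFree : Free d F) (M : Type u) [Field M] [Algebra K M]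
    (ρ : Fin c → M) (hρ : AlgebraicIndependent K ρ) (s : Fin a → M) (hs : s ≠ 0)
    (hΦ : ∀ i : ι, Phi (F (some i)) ρ s = 0) :
    LinearIndependent M fun (j : Option ι) (m : Fin a) => Phim (F j) ρ s m := by
  classical
  have hc : CharZero M := charZero_of_injective_algebraMap (algebraMap K M).injective
  rw [Fintype.linearIndependent_iff]
  intro g hg
  have hg' : ∀ m, ∑ j, g j * Phim (F j) ρ s m = 0 := by
    intro m
    have := congrFun hg m
    rw [Finset.sum_apply] at this
    exact this
  have h1 : g none * Phi (F none) ρ s = 0 := by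
    have e1 : ∑ j, g j * (((d j - 1 : ℕ) : M) * Phi (F j) ρ s) = 0 := by
      simp only [← euler_Phi (hF _)]
      simp only [Finset.mul_sum]
      rw [Finset.sum_comm]
      refine Finset.sum_eq_zero fun m _ => ?_
      have := hg' m
      calc _ = s m * ∑ j, g j * Phim (F j) ρ s m := by
            rw [Finset.mul_sum]
            exact Finset.sum_congr rfl fun j _ => by ring
        _ = 0 := by rw [this, mul_zero]
    rw [Fintype.sum_option] at e1
    simp only [hΦ, mul_zero, Finset.sum_const_zero, add_zero] at e1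
    have e2 : ((d none - 1 : ℕ) : M) ≠ 0 := by
      have := hd none
      exact_mod_cast (by omega : d none - 1 ≠ 0)
    have e3 : ((d none - 1 : ℕ) : M) * (g none * Phi (F none) ρ s) = 0 := by
      linear_combination e1
    exact (mul_eq_zero.1 e3).resolve_left e2
  have h2 : ∀ (D : Derivation K M M) (j : Option ι), g j * D (Phi (F j) ρ s) = 0 := by
    intro D j
    cases j with
    | none =>
      rcases mul_eq_zero.1 h1 with h | h
      · rw [h, zero_mul]
      · rw [h, map_zero, mul_zero]
    | some i => rw [hΦ, map_zero, mul_zero]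
  have h3 : ∀ D : Derivation K M M, ∑ j, g j * Phi (F j) (fun l => D (ρ l)) s = 0 := by
    intro D
    have e1 : ∑ j, g j * D (Phi (F j) ρ s) = 0 := Finset.sum_eq_zero fun j _ => h2 D j
    simp only [der_Phi, mul_add, Finset.sum_add_distrib] at e1
    have e2 : ∑ j, g j * ∑ m, Phim (F j) ρ s m * D (s m) = 0 := by
      simp only [Finset.mul_sum]
      rw [Finset.sum_comm]
      refine Finset.sum_eq_zero fun m _ => ?_
      calc _ = (∑ j, g j * Phim (F j) ρ s m) * D (s m) := by
            rw [Finset.sum_mul]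
            exact Finset.sum_congr rfl fun j _ => by ring
        _ = 0 := by rw [hg' m, zero_mul]
    rw [e2, add_zero] at e1
    exact e1
  obtain ⟨m0, hm0⟩ : ∃ m, s m ≠ 0 := by
    by_contra hcon
    push Not at hcon
    exact hs (funext hcon)
  intro j0
  obtain ⟨η, hη⟩ := hFree M (fun j => if j = j0 then X m0 ^ (d j0 - 1) else 0) (by
    intro j
    by_cases hj : j = j0
    · subst hj
      simp only [if_true]
      exact isHomogeneous_X_pow m0 _
    · simp only [if_neg hj]
      exact isHomogeneous_zero _ _ _)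
  obtain ⟨D, hD⟩ := Pool.Agent.H135R2.VS.exists_der hρ η
  have h4 := h3 D
  have h5 : (fun l => D (ρ l)) = η := funext hD
  rw [h5] at h4
  simp only [← lin_eval, hη] at h4
  rw [Finset.sum_eq_single j0] at h4
  · simp only [if_true, map_pow, aeval_X] at h4
    exact (mul_eq_zero.1 h4).resolve_right (pow_ne_zero _ hm0)
  · intro j _ hj
    rw [if_neg hj, map_zero, mul_zero]
  · intro h
    exact absurd (Finset.mem_univ _) h

end Pool.Agent.Helper45.HY
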